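import Pool.Agent.Q2.UD.Ideals
import Pool.Agent.Q2.UD.Group
import Pool.Agent.Helper240.Amen.HB

/-!
# MP_529953_al, Q2: the answer is negative in every characteristic p > 0

There is a finitely generated amenable (indeed solvable) group all of whose finite subgroups are
`p`-groups and whose group algebra over every field has infinite uniform dimension.
-/

set_option autoImplicit false

namespace Pool.Agent.Results.MP_529953_al.UniformDimension

universe u

/-- `G` is amenable: there is a left-invariant finitely additive probability measure on all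
subsets of `G`. -/
def Amenable (G : Type) [Group G] : Prop :=
  ∃ m : Set G → ℝ, (∀ A, 0 ≤ m A) ∧ m Set.univ = 1 ∧
    (∀ A B, Disjoint A B → m (A ∪ B) = m A + m B) ∧
    ∀ (g : G) (A : Set G), m ((fun x => g * x) '' A) = m A

/-- The ring `R` contains a direct sum of `n` nonzero right ideals. -/
def HasDirectSum (R : Type u) [Ring R] (n : ℕ) : Prop :=
  ∃ I : Fin n → Submodule Rᵐᵒᵖ R, (∀ i, I i ≠ ⊥) ∧ iSupIndep I

/-- The right uniform dimension of `R`: the supremum of the integers `n` such that `R` contains a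
direct sum of `n` nonzero right ideals. -/
noncomputable def udim (R : Type u) [Ring R] : ℕ∞ := ⨆ n : {n : ℕ // HasDirectSum R n}, (n.1 : ℕ∞)

/-- The orders of the finite `p'`-subgroups of `G` are bounded. -/
def BoundedPPrime (p : ℕ) (G : Type) [Group G] : Prop :=
  ∃ N : ℕ, ∀ F : Subgroup G, Finite F → ¬ p ∣ Nat.card F → Nat.card F ≤ N

/-- The statement of Q2 for the field `k` of characteristic `p`. -/
def Question2 (p : ℕ) (k : Type u) [Field k] : Prop :=
  ∀ (G : Type) [Group G], Amenable G → BoundedPPrime p G → udim (MonoidAlgebra k G) < ⊤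

open Pool.Agent.Q2.UD

theorem trivial_of_pgroup {p : ℕ} {G : Type} [Group G] [Fact p.Prime] (F : Subgroup G)
    (hF : Finite F) (hp : IsPGroup p F) (h : ¬ p ∣ Nat.card F) : F = ⊥ := by
  rw [← Subgroup.card_eq_one]
  obtain ⟨n, hn⟩ := hp.exists_card_eq
  rcases Nat.eq_zero_or_pos n with h0 | h0
  · rw [hn, h0, pow_zero]
  · exfalso
    apply h
    rw [hn]
    exact dvd_pow_self p h0.ne'

theorem udim_top {R : Type u} [Ring R] (I : ℕ → Submodule Rᵐᵒᵖ R) (h1 : ∀ n, I n ≠ ⊥)
    (h2 : iSupIndep I) : udim R = ⊤ := by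
  rw [eq_top_iff, ← ENat.iSup_natCast]
  apply iSup_le
  intro n
  refine le_iSup (fun n : {n : ℕ // HasDirectSum R n} => (n.1 : ℕ∞)) ⟨n, ?_⟩
  exact ⟨fun i => I i, fun i => h1 i, h2.comp Fin.val_injective⟩

theorem main (p : ℕ) [Fact p.Prime] : ∃ (G : Type) (_ : Group G),
    Group.FG G ∧ Group.IsSolvable G ∧ Amenable G ∧
    (∀ F : Subgroup G, Finite F → IsPGroup p F) ∧
    (∀ F : Subgroup G, Finite F → ¬ p ∣ Nat.card F → F = ⊥) ∧
    ∀ (k : Type u) [Field k],
      (∃ I : ℕ → Submodule (MonoidAlgebra k G)ᵐᵒᵖ (MonoidAlgebra k G),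
        (∀ n, I n ≠ ⊥) ∧ iSupIndep I) ∧
      udim (MonoidAlgebra k G) = ⊤ := by
  have hpg : ∀ F : Subgroup (HH p), Finite F → IsPGroup p F := by
    intro F hF g
    refine ⟨1, ?_⟩
    rw [pow_one]
    apply Subtype.ext
    exact HH_pow p (F.subtype.isOfFinOrder (isOfFinOrder_of_finite g))
  refine ⟨HH p, inferInstance, HH_fg p, inferInstance,
    Pool.Agent.Helper240.Amen.amenable_of_solvable _ inferInstance, hpg,
    fun F hF h => trivial_of_pgroup F hF (hpg F hF) h, ?_⟩
  intro k _
  have h1 : ∀ n, Inv k (Subgroup.closure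
      ({x | ∃ i < n, x = eH p i} ∪ {vH p n * eH p n * (vH p n)⁻¹})) ≠ ⊥ := by
    intro n
    have := HH_fin p n
    exact Inv_ne_bot _
  have h2 := indep (k := k) (eH p) (fun n => vH p n * eH p n * (vH p n)⁻¹) (HH_inf p)
  exact ⟨⟨_, h1, h2⟩, udim_top _ h1 h2⟩

/-- Q2 has a negative answer for every field of positive characteristic. For every prime `p` there
is a finitely generated solvable (hence amenable) group `G` all of whose finite subgroups are
`p`-groups, so that its only finite `p'`-subgroup is the trivial one, such that for every field `k`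
the group algebra `kG` contains an infinite direct sum of nonzero right ideals; in particular its
uniform dimension is infinite. -/
theorem result (p : ℕ) [Fact p.Prime] :
    (∃ (G : Type) (_ : Group G), Group.FG G ∧ Group.IsSolvable G ∧ Amenable G ∧
      (∀ F : Subgroup G, Finite F → IsPGroup p F) ∧
      (∀ F : Subgroup G, Finite F → ¬ p ∣ Nat.card F → F = ⊥) ∧
      ∀ (k : Type u) [Field k],
        (∃ I : ℕ → Submodule (MonoidAlgebra k G)ᵐᵒᵖ (MonoidAlgebra k G),
          (∀ n, I n ≠ ⊥) ∧ iSupIndep I) ∧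
        udim (MonoidAlgebra k G) = ⊤) ∧
    ∀ (k : Type u) [Field k] [CharP k p], ¬ Question2 p k := by
  refine ⟨main p, ?_⟩
  intro k _ _ hQ
  obtain ⟨G, hG, _, _, ham, _, htriv, hk⟩ := main.{u} p
  have h1 := hQ G ham ⟨1, fun F hF hp => by
    rw [htriv F hF hp, Subgroup.card_bot]⟩
  rw [(hk k).2] at h1
  exact lt_irrefl _ h1

end Pool.Agent.Results.MP_529953_al.UniformDimension
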